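import Mathlib

/-!
# The maximum of Randić index plus independence number over connected graphs

For `n ≥ 3` the largest value of `R(G) + α(G)` over the connected graphs with `n` vertices is the
largest of the numbers `n - a + √(a (n - a))`, `1 ≤ a ≤ n / 2`, attained by complete bipartite graphs.
Hence the inequality `R(G) + α(G) ≤ n - 1 + √(n - 1)` conjectured by AutoGraphiX holds for all connected
graphs on `n` vertices if and only if `n ≤ 10`.

Upper bound: let `S` be a largest independent set, `T` the set of the other vertices and `x` the sum of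
`e(t, S) / d(t)` over `t ∈ T`.  By the inequality of Cauchy and Schwarz the edges between `S` and `T`
contribute at most `√(α x)`, and the edges inside `T` contribute at most `(|T| - x) / 2`.
-/

set_option autoImplicit false

namespace Pool.Agent.Results.MP_e31007_co.ExactMaximum

open Finset
open scoped Classical

/-- The Randić index of a finite graph: the sum of `1 / √(d(u) d(v))` over the edges `u v`. -/
noncomputable def randic {V : Type} [Fintype V] (G : SimpleGraph V) : ℝ :=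
  ∑ e ∈ G.edgeFinset, Sym2.lift ⟨fun u v => 1 / √((G.degree u : ℝ) * (G.degree v : ℝ)),
    fun u v => by simp only [mul_comm]⟩ e

variable {V : Type} [Fintype V]

/-- The term of an ordered pair. -/
noncomputable def tm (G : SimpleGraph V) (u v : V) : ℝ :=
  if G.Adj u v then 1 / √((G.degree u : ℝ) * (G.degree v : ℝ)) else 0

/-- The term of an unordered pair. -/
noncomputable def et (G : SimpleGraph V) : Sym2 V → ℝ :=
  Sym2.lift ⟨fun u v => 1 / √((G.degree u : ℝ) * (G.degree v : ℝ)),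
    fun u v => by simp only [mul_comm]⟩

lemma two_randic (G : SimpleGraph V) : 2 * randic G = ∑ u : V, ∑ v : V, tm G u v := by
  have h1 : ∑ d : G.Dart, et G d.edge = 2 * randic G := by
    show _ = 2 * ∑ e ∈ G.edgeFinset, et G e
    rw [← Finset.sum_fiberwise_of_maps_to (s := (univ : Finset G.Dart)) (t := G.edgeFinset)
      (g := fun d => d.edge) (fun d _ => by
        rw [SimpleGraph.mem_edgeFinset]; exact d.edge_mem)]
    rw [Finset.mul_sum]
    refine Finset.sum_congr rfl fun e he => ?_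
    rw [SimpleGraph.mem_edgeFinset] at he
    rw [Finset.sum_congr rfl (g := fun _ => et G e)]
    · rw [Finset.sum_const, G.dart_edge_fiber_card e he, nsmul_eq_mul]
      norm_num
    · intro d hd
      rw [(Finset.mem_filter.1 hd).2]
  rw [← h1]
  rw [← Finset.sum_product']
  rw [show (∑ x ∈ (univ : Finset V) ×ˢ (univ : Finset V), tm G x.1 x.2) =
      ∑ x ∈ (univ : Finset (V × V)).filter (fun x => G.Adj x.1 x.2), tm G x.1 x.2 by
    rw [Finset.univ_product_univ]
    symm
    apply Finset.sum_filter_of_ne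
    intro x _ hx
    by_contra h
    exact hx (by unfold tm; rw [if_neg h])]
  refine Finset.sum_bij (fun d _ => d.toProd) ?_ ?_ ?_ ?_
  · intro d _
    simp
  · intro d _ d' _ h
    exact SimpleGraph.Dart.toProd_injective h
  · rintro ⟨u, v⟩ h
    exact ⟨⟨(u, v), by simpa using h⟩, mem_univ _, rfl⟩
  · intro d _
    unfold tm
    rw [if_pos d.adj]
    rfl

lemma tm_symm (G : SimpleGraph V) (u v : V) : tm G u v = tm G v u := by
  unfold tm
  simp only [G.adj_comm u v, mul_comm]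

lemma tm_nonneg (G : SimpleGraph V) (u v : V) : 0 ≤ tm G u v := by
  unfold tm; split_ifs <;> positivity

/-- reciprocal degree of `u` on the pair `u v`. -/
noncomputable def rd (G : SimpleGraph V) (u v : V) : ℝ :=
  if G.Adj u v then 1 / (G.degree u : ℝ) else 0

lemma rd_nonneg (G : SimpleGraph V) (u v : V) : 0 ≤ rd G u v := by
  unfold rd; split_ifs <;> positivity

lemma tm_eq (G : SimpleGraph V) (u v : V) : tm G u v = √(rd G u v * rd G v u) := by
  unfold tm rd
  by_cases h : G.Adj u v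
  · rw [if_pos h, if_pos h, if_pos h.symm, one_div_mul_one_div, Real.sqrt_div zero_le_one,
      Real.sqrt_one]
  · rw [if_neg h, if_neg h, zero_mul, Real.sqrt_zero]

lemma tm_le (G : SimpleGraph V) (u v : V) : tm G u v ≤ (rd G u v + rd G v u) / 2 := by
  rw [tm_eq]
  have h1 := rd_nonneg G u v
  have h2 := rd_nonneg G v u
  rw [Real.sqrt_le_left (by positivity)]
  nlinarith [sq_nonneg (rd G u v - rd G v u)]

lemma sum_rd_le (G : SimpleGraph V) (u : V) : ∑ v : V, rd G u v ≤ 1 := by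
  unfold rd
  rw [← Finset.sum_filter, Finset.sum_const, nsmul_eq_mul]
  have : (univ.filter fun v => G.Adj u v).card = G.degree u := by
    rw [← SimpleGraph.card_neighborFinset_eq_degree]
    congr 1
    ext v
    simp
  rw [this]
  by_cases h : G.degree u = 0
  · rw [h]; simp
  · rw [mul_one_div, div_self (by exact_mod_cast h)]

omit [Fintype V] in
lemma cs (S T : Finset V) (f g : V → V → ℝ) (hf : ∀ u v, 0 ≤ f u v) (hg : ∀ u v, 0 ≤ g u v) :
    ∑ s ∈ S, ∑ t ∈ T, √(f s t * g s t) ≤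
      √((∑ s ∈ S, ∑ t ∈ T, f s t) * (∑ s ∈ S, ∑ t ∈ T, g s t)) := by
  rw [← Finset.sum_product', ← Finset.sum_product', ← Finset.sum_product']
  have h := Real.sum_sqrt_mul_sqrt_le (S ×ˢ T) (f := fun x => f x.1 x.2) (g := fun x => g x.1 x.2)
    (fun x => hf _ _) (fun x => hg _ _)
  rw [Real.sqrt_mul (Finset.sum_nonneg fun x _ => hf _ _)]
  refine le_trans (le_of_eq ?_) h
  refine Finset.sum_congr rfl fun x _ => ?_
  rw [Real.sqrt_mul (hf _ _)]

/-- The main inequality. -/
lemma randic_le (G : SimpleGraph V) (S : Finset V) (hS : G.IsIndepSet S) :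
    ∃ x : ℝ, 0 ≤ x ∧ x ≤ (Sᶜ.card : ℝ) ∧
      randic G ≤ √((S.card : ℝ) * x) + ((Sᶜ.card : ℝ) - x) / 2 := by
  set x : ℝ := ∑ s ∈ S, ∑ t ∈ Sᶜ, rd G t s with hx
  have hx' : x = ∑ t ∈ Sᶜ, ∑ s ∈ S, rd G t s := Finset.sum_comm
  have hT : ∑ t ∈ Sᶜ, ∑ t' ∈ Sᶜ, rd G t t' ≤ (Sᶜ.card : ℝ) - x := by
    have : ∑ t ∈ Sᶜ, ∑ v : V, rd G t v ≤ ∑ t ∈ Sᶜ, (1 : ℝ) :=
      Finset.sum_le_sum fun t _ => sum_rd_le G t
    rw [Finset.sum_const, nsmul_eq_mul, mul_one] at this
    have h2 : ∑ t ∈ Sᶜ, ∑ v : V, rd G t v = x + ∑ t ∈ Sᶜ, ∑ t' ∈ Sᶜ, rd G t t' := by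
      rw [hx', ← Finset.sum_add_distrib]
      refine Finset.sum_congr rfl fun t _ => ?_
      rw [Finset.sum_add_sum_compl]
    linarith
  have hT0 : 0 ≤ ∑ t ∈ Sᶜ, ∑ t' ∈ Sᶜ, rd G t t' :=
    Finset.sum_nonneg fun t _ => Finset.sum_nonneg fun t' _ => rd_nonneg G _ _
  refine ⟨x, Finset.sum_nonneg fun s _ => Finset.sum_nonneg fun t _ => rd_nonneg G _ _,
    by linarith, ?_⟩
  have hsplit : ∑ u : V, ∑ v : V, tm G u v =
      2 * (∑ s ∈ S, ∑ t ∈ Sᶜ, tm G s t) + ∑ t ∈ Sᶜ, ∑ t' ∈ Sᶜ, tm G t t' := by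
    rw [← Finset.sum_add_sum_compl S (fun u => ∑ v : V, tm G u v)]
    have e1 : ∑ s ∈ S, ∑ v : V, tm G s v = ∑ s ∈ S, ∑ t ∈ Sᶜ, tm G s t := by
      refine Finset.sum_congr rfl fun s hs => ?_
      rw [← Finset.sum_add_sum_compl S (fun v => tm G s v)]
      rw [Finset.sum_eq_zero (s := S), zero_add]
      intro t ht
      unfold tm
      rw [if_neg]
      intro hadj
      exact hS (by simpa using hs) (by simpa using ht) hadj.ne hadj
    have e2 : ∑ t ∈ Sᶜ, ∑ v : V, tm G t v =
        ∑ s ∈ S, ∑ t ∈ Sᶜ, tm G s t + ∑ t ∈ Sᶜ, ∑ t' ∈ Sᶜ, tm G t t' := by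
      rw [Finset.sum_comm (s := S) (t := Sᶜ), ← Finset.sum_add_distrib]
      refine Finset.sum_congr rfl fun t _ => ?_
      rw [← Finset.sum_add_sum_compl S (fun v => tm G t v)]
      congr 1
      exact Finset.sum_congr rfl fun s _ => tm_symm G t s
    rw [e1, e2]; ring
  have h1 : ∑ s ∈ S, ∑ t ∈ Sᶜ, tm G s t ≤ √((S.card : ℝ) * x) := by
    have h := cs S Sᶜ (fun s t => rd G s t) (fun s t => rd G t s) (fun _ _ => rd_nonneg G _ _)
      (fun _ _ => rd_nonneg G _ _)
    simp only [← tm_eq] at h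
    refine h.trans (Real.sqrt_le_sqrt ?_)
    apply mul_le_mul_of_nonneg_right _
      (Finset.sum_nonneg fun s _ => Finset.sum_nonneg fun t _ => rd_nonneg G _ _)
    calc ∑ s ∈ S, ∑ t ∈ Sᶜ, rd G s t ≤ ∑ s ∈ S, ∑ t : V, rd G s t :=
          Finset.sum_le_sum fun s _ => Finset.sum_le_sum_of_subset_of_nonneg (subset_univ _)
            fun t _ _ => rd_nonneg G _ _
      _ ≤ ∑ s ∈ S, (1 : ℝ) := Finset.sum_le_sum fun s _ => sum_rd_le G s
      _ = (S.card : ℝ) := by rw [Finset.sum_const, nsmul_eq_mul, mul_one]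
  have h2 : ∑ t ∈ Sᶜ, ∑ t' ∈ Sᶜ, tm G t t' ≤ (Sᶜ.card : ℝ) - x := by
    refine le_trans ?_ hT
    calc ∑ t ∈ Sᶜ, ∑ t' ∈ Sᶜ, tm G t t' ≤ ∑ t ∈ Sᶜ, ∑ t' ∈ Sᶜ, (rd G t t' + rd G t' t) / 2 :=
          Finset.sum_le_sum fun t _ => Finset.sum_le_sum fun t' _ => tm_le G _ _
      _ = ∑ t ∈ Sᶜ, ∑ t' ∈ Sᶜ, rd G t t' := by
        have e : ∑ t ∈ Sᶜ, ∑ t' ∈ Sᶜ, rd G t' t = ∑ t ∈ Sᶜ, ∑ t' ∈ Sᶜ, rd G t t' :=
          Finset.sum_comm
        have e' : ∑ t ∈ Sᶜ, ∑ t' ∈ Sᶜ, (rd G t t' + rd G t' t) / 2 =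
            (∑ t ∈ Sᶜ, ∑ t' ∈ Sᶜ, rd G t t' + ∑ t ∈ Sᶜ, ∑ t' ∈ Sᶜ, rd G t' t) / 2 := by
          simp only [← Finset.sum_div, Finset.sum_add_distrib]
        rw [e', e]; ring
  have h3 := two_randic G
  rw [hsplit] at h3
  linarith

/-- The upper bound in terms of the independence number. -/
lemma randic_le_indep (G : SimpleGraph V) (b : ℕ) (hb : G.indepNum + b = Fintype.card V) :
    (b ≤ G.indepNum → randic G ≤ √((b : ℝ) * (G.indepNum : ℝ))) ∧
    (G.indepNum ≤ b → randic G ≤ ((G.indepNum : ℝ) + b) / 2) := by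
  obtain ⟨S, hS⟩ := G.exists_isNIndepSet_indepNum
  obtain ⟨x, hx0, hxb, hR⟩ := randic_le G S hS.1
  have hc : Sᶜ.card = b := by
    rw [Finset.card_compl, hS.2]; omega
  rw [hc] at hxb hR
  rw [hS.2] at hR
  set α : ℝ := (G.indepNum : ℝ) with hα
  have hα0 : 0 ≤ α := by positivity
  have hb0 : (0 : ℝ) ≤ b := by positivity
  constructor
  · intro h
    have h' : (b : ℝ) ≤ α := Nat.cast_le.2 h
    refine hR.trans ?_
    rw [Real.sqrt_mul hα0, mul_comm (b : ℝ), Real.sqrt_mul hα0]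
    have e1 : √(b : ℝ) ≤ √α := Real.sqrt_le_sqrt h'
    have e2 : √x ≤ √(b : ℝ) := Real.sqrt_le_sqrt hxb
    have e3 : √x * √x = x := Real.mul_self_sqrt hx0
    have e4 : √(b : ℝ) * √(b : ℝ) = b := Real.mul_self_sqrt hb0
    have e5 : 0 ≤ √x := Real.sqrt_nonneg x
    nlinarith [mul_nonneg (sub_nonneg.2 e2) (sub_nonneg.2 e1),
      mul_nonneg (sub_nonneg.2 e2) (sub_nonneg.2 e2)]
  · intro h
    refine hR.trans ?_
    have e : √(α * x) ≤ (α + x) / 2 := by
      rw [Real.sqrt_le_left (by positivity)]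
      nlinarith [sq_nonneg (α - x)]
    linarith

/-! ### Complete bipartite graphs -/

/-- The complete bipartite graph with parts `{u | u < a}` and `{u | a ≤ u}`. -/
def kb (n a : ℕ) : SimpleGraph (Fin n) where
  Adj u v := ((u : ℕ) < a ∧ a ≤ (v : ℕ)) ∨ ((v : ℕ) < a ∧ a ≤ (u : ℕ))
  symm := ⟨fun u v h => by omega⟩
  loopless := ⟨fun u h => by omega⟩

lemma kb_adj (n a : ℕ) (u v : Fin n) :
    (kb n a).Adj u v ↔ ((u : ℕ) < a ∧ a ≤ (v : ℕ)) ∨ ((v : ℕ) < a ∧ a ≤ (u : ℕ)) := Iff.rfl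

lemma card_lt (n a : ℕ) (h : a ≤ n) :
    (univ.filter fun u : Fin n => (u : ℕ) < a).card = a := by
  rw [Fin.card_filter_val_lt]
  omega

lemma card_ge (n a : ℕ) (h : a ≤ n) :
    (univ.filter fun u : Fin n => a ≤ (u : ℕ)).card = n - a := by
  have h1 := Finset.card_filter_add_card_filter_not (s := (univ : Finset (Fin n)))
    (fun u => (u : ℕ) < a)
  rw [card_lt n a h, Finset.card_univ, Fintype.card_fin] at h1
  simp only [not_lt] at h1
  omega

lemma kb_degree_lt (n a : ℕ) (h : a ≤ n) (u : Fin n) (hu : (u : ℕ) < a) :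
    (kb n a).degree u = n - a := by
  rw [← SimpleGraph.card_neighborFinset_eq_degree, ← card_ge n a h]
  congr 1
  ext v
  simp only [SimpleGraph.mem_neighborFinset, kb_adj, mem_filter, mem_univ, true_and]
  omega

lemma kb_degree_ge (n a : ℕ) (h : a ≤ n) (u : Fin n) (hu : a ≤ (u : ℕ)) :
    (kb n a).degree u = a := by
  rw [← SimpleGraph.card_neighborFinset_eq_degree]
  conv_rhs => rw [← card_lt n a h]
  congr 1
  ext v
  simp only [SimpleGraph.mem_neighborFinset, kb_adj, mem_filter, mem_univ, true_and]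
  omega

lemma kb_randic (n a : ℕ) (h1 : 1 ≤ a) (h2 : a < n) :
    randic (kb n a) = √((a : ℝ) * ((n : ℝ) - a)) := by
  have hcast : ((n - a : ℕ) : ℝ) = (n : ℝ) - a := by
    rw [Nat.cast_sub h2.le]
  have hpos : 0 < (a : ℝ) * ((n : ℝ) - a) := by
    rw [← hcast]
    have : 0 < n - a := by omega
    positivity
  have h3 := two_randic (kb n a)
  have key : ∑ u : Fin n, ∑ v : Fin n, tm (kb n a) u v =
      2 * ((a : ℝ) * ((n : ℝ) - a) * (1 / √((a : ℝ) * ((n : ℝ) - a)))) := by
    set c : ℝ := 1 / √((a : ℝ) * ((n : ℝ) - a)) with hc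
    have e : ∀ u v : Fin n, tm (kb n a) u v =
        (if (u : ℕ) < a then (if a ≤ (v : ℕ) then c else 0) else 0) +
        (if a ≤ (u : ℕ) then (if (v : ℕ) < a then c else 0) else 0) := by
      intro u v
      unfold tm
      rw [kb_adj]
      by_cases hu : (u : ℕ) < a
      · have hu' : ¬ a ≤ (u : ℕ) := by omega
        by_cases hv : (v : ℕ) < a
        · have hv' : ¬ a ≤ (v : ℕ) := by omega
          simp [hu', hv']
        · have hv' : a ≤ (v : ℕ) := by omega
          rw [if_pos (Or.inl ⟨hu, hv'⟩), if_pos hu, if_pos hv', if_neg hu', add_zero,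
            kb_degree_lt n a h2.le u hu, kb_degree_ge n a h2.le v hv', hcast, hc, mul_comm]
      · have hu' : a ≤ (u : ℕ) := by omega
        by_cases hv : (v : ℕ) < a
        · have hv' : ¬ a ≤ (v : ℕ) := by omega
          rw [if_pos (Or.inr ⟨hv, hu'⟩), if_neg hu, if_pos hu', if_pos hv, zero_add,
            kb_degree_lt n a h2.le v hv, kb_degree_ge n a h2.le u hu', hcast, hc]
        · simp [hu, hv]
    simp only [e, Finset.sum_add_distrib]
    have e1 : ∑ v : Fin n, (if a ≤ (v : ℕ) then c else 0) = ((n : ℝ) - a) * c := by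
      rw [← Finset.sum_filter, Finset.sum_const, card_ge n a h2.le, nsmul_eq_mul, hcast]
    have e2 : ∑ v : Fin n, (if (v : ℕ) < a then c else 0) = (a : ℝ) * c := by
      rw [← Finset.sum_filter, Finset.sum_const, card_lt n a h2.le, nsmul_eq_mul]
    have e3 : ∑ u : Fin n, ∑ v : Fin n,
        (if (u : ℕ) < a then (if a ≤ (v : ℕ) then c else 0) else 0) =
        (a : ℝ) * (((n : ℝ) - a) * c) := by
      rw [← e1]
      rw [show (∑ u : Fin n, ∑ v : Fin n,
        (if (u : ℕ) < a then (if a ≤ (v : ℕ) then c else 0) else 0)) =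
        ∑ u : Fin n, if (u : ℕ) < a then (∑ v : Fin n, (if a ≤ (v : ℕ) then c else 0)) else 0 by
          refine Finset.sum_congr rfl fun u _ => ?_
          split_ifs <;> simp]
      rw [← Finset.sum_filter, Finset.sum_const, card_lt n a h2.le, nsmul_eq_mul]
    have e4 : ∑ u : Fin n, ∑ v : Fin n,
        (if a ≤ (u : ℕ) then (if (v : ℕ) < a then c else 0) else 0) =
        ((n : ℝ) - a) * ((a : ℝ) * c) := by
      rw [← e2]
      rw [show (∑ u : Fin n, ∑ v : Fin n,
        (if a ≤ (u : ℕ) then (if (v : ℕ) < a then c else 0) else 0)) =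
        ∑ u : Fin n, if a ≤ (u : ℕ) then (∑ v : Fin n, (if (v : ℕ) < a then c else 0)) else 0 by
          refine Finset.sum_congr rfl fun u _ => ?_
          split_ifs <;> simp]
      rw [← Finset.sum_filter, Finset.sum_const, card_ge n a h2.le, nsmul_eq_mul, hcast]
    rw [e3, e4]; ring
  rw [key] at h3
  have h4 : (a : ℝ) * ((n : ℝ) - a) * (1 / √((a : ℝ) * ((n : ℝ) - a))) =
      √((a : ℝ) * ((n : ℝ) - a)) := by
    rw [mul_one_div, Real.div_sqrt]
  linarith

lemma kb_indep (n a : ℕ) (h2 : 2 * a ≤ n) : (kb n a).indepNum = n - a := by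
  apply le_antisymm
  · obtain ⟨S, hS⟩ := (kb n a).exists_isNIndepSet_indepNum
    rw [← hS.2]
    by_cases h : ∃ u ∈ S, (u : ℕ) < a
    · obtain ⟨u, hu, hua⟩ := h
      have : S ⊆ univ.filter fun v : Fin n => (v : ℕ) < a := by
        intro v hv
        rw [mem_filter]
        refine ⟨mem_univ _, ?_⟩
        by_contra hva
        push Not at hva
        have hadj : (kb n a).Adj u v := Or.inl ⟨hua, hva⟩
        exact hS.1 (by simpa using hu) (by simpa using hv) hadj.ne hadj
      have h3 := Finset.card_le_card this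
      rw [card_lt n a (by omega)] at h3
      omega
    · push Not at h
      have : S ⊆ univ.filter fun v : Fin n => a ≤ (v : ℕ) := by
        intro v hv
        rw [mem_filter]
        exact ⟨mem_univ _, h v hv⟩
      have h3 := Finset.card_le_card this
      rwa [card_ge n a (by omega)] at h3
  · rw [← card_ge n a (by omega)]
    apply SimpleGraph.IsIndepSet.card_le_indepNum
    intro u hu v hv _ hadj
    simp only [coe_filter, mem_univ, true_and, Set.mem_ofPred_eq] at hu hv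
    rw [kb_adj] at hadj
    omega

lemma kb_connected (n a : ℕ) (h1 : 1 ≤ a) (h2 : a < n) : (kb n a).Connected := by
  have : Nonempty (Fin n) := ⟨⟨0, by omega⟩⟩
  have hstep : ∀ u v : Fin n, (kb n a).Adj u v → (kb n a).Reachable u v :=
    fun u v h => h.reachable
  have h0 : ∀ u : Fin n, (kb n a).Reachable ⟨0, by omega⟩ u := by
    intro u
    by_cases hu : (u : ℕ) < a
    · refine (hstep _ ⟨n - 1, by omega⟩ ?_).trans (hstep _ u ?_)
      · left; exact ⟨by show 0 < a; omega, by show a ≤ n - 1; omega⟩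
      · right; exact ⟨hu, by show a ≤ n - 1; omega⟩
    · apply hstep
      left; exact ⟨by show 0 < a; omega, by omega⟩
  exact ⟨fun u v => (h0 u).symm.trans (h0 v)⟩

/-! ### The theorem -/

/-- The largest value of `n - a + √(a (n - a))` for `1 ≤ a ≤ n / 2` is the maximum of the Randić index
plus the independence number over all connected graphs with `n ≥ 3` vertices; the inequality
`R(G) + α(G) ≤ n - 1 + √(n - 1)` holds for all of them if and only if `n ≤ 10`. -/
theorem result (n : ℕ) (hn : 3 ≤ n) :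
    IsGreatest {x : ℝ | ∃ G : SimpleGraph (Fin n), G.Connected ∧ x = randic G + (G.indepNum : ℝ)}
      ((Finset.Icc 1 (n / 2)).sup' (Finset.nonempty_Icc.2 (by omega))
        fun a : ℕ => (n : ℝ) - a + √((a : ℝ) * ((n : ℝ) - a))) ∧
    ((∀ G : SimpleGraph (Fin n), G.Connected →
      randic G + (G.indepNum : ℝ) ≤ (n : ℝ) - 1 + √((n : ℝ) - 1)) ↔ n ≤ 10) := by
  have hne : (Finset.Icc 1 (n / 2)).Nonempty := Finset.nonempty_Icc.2 (by omega)
  have hn3 : (3 : ℝ) ≤ n := by exact_mod_cast hn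
  -- attained
  have hatt : ∀ a ∈ Finset.Icc 1 (n / 2), ∃ G : SimpleGraph (Fin n), G.Connected ∧
      (n : ℝ) - a + √((a : ℝ) * ((n : ℝ) - a)) = randic G + (G.indepNum : ℝ) := by
    intro a ha
    rw [Finset.mem_Icc] at ha
    refine ⟨kb n a, kb_connected n a ha.1 (by omega), ?_⟩
    rw [kb_randic n a ha.1 (by omega), kb_indep n a (by omega), Nat.cast_sub (by omega)]
    ring
  -- upper bound
  have hup : ∀ G : SimpleGraph (Fin n), G.Connected → ∃ a ∈ Finset.Icc 1 (n / 2),
      randic G + (G.indepNum : ℝ) ≤ (n : ℝ) - a + √((a : ℝ) * ((n : ℝ) - a)) := by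
    intro G hG
    have hα : G.indepNum < n := by
      obtain ⟨S, hS⟩ := G.exists_isNIndepSet_indepNum
      rw [← hS.2]
      have hle : S.card ≤ n := by simpa using Finset.card_le_univ S
      refine lt_of_le_of_ne hle fun heq => ?_
      have hSu : S = univ := by
        rw [← Finset.card_eq_iff_eq_univ, heq, Fintype.card_fin]
      have hno : ∀ u v : Fin n, ¬ G.Adj u v := fun u v h =>
        hS.1 (by rw [hSu]; simp) (by rw [hSu]; simp) h.ne h
      have hbot : G = ⊥ := by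
        ext u v
        simp [hno u v]
      have h01 : (⟨0, by omega⟩ : Fin n) ≠ ⟨1, by omega⟩ := by
        intro h; simp at h
      have : Nontrivial (Fin n) := ⟨⟨_, _, h01⟩⟩
      obtain ⟨w, hw⟩ := hG.preconnected.exists_adj_of_nontrivial ⟨0, by omega⟩
      exact hno _ _ hw
    have hbb := randic_le_indep G (n - G.indepNum) (by rw [Fintype.card_fin]; omega)
    have hcast : ((n - G.indepNum : ℕ) : ℝ) = (n : ℝ) - (G.indepNum : ℝ) := by
      rw [Nat.cast_sub hα.le]
    rcases le_or_gt (n - G.indepNum) G.indepNum with h | h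
    · refine ⟨n - G.indepNum, Finset.mem_Icc.2 ⟨by omega, by omega⟩, ?_⟩
      have h1 := hbb.1 h
      rw [hcast] at h1 ⊢
      rw [show (n : ℝ) - ((n : ℝ) - (G.indepNum : ℝ)) = (G.indepNum : ℝ) by ring]
      linarith
    · refine ⟨1, Finset.mem_Icc.2 ⟨le_refl _, by omega⟩, ?_⟩
      have h1 := hbb.2 h.le
      rw [hcast] at h1
      have h2 : 2 * (G.indepNum : ℝ) + 1 ≤ n := by
        have : 2 * G.indepNum + 1 ≤ n := by omega
        exact_mod_cast this
      have h3 : (1 : ℝ) ≤ √((1 : ℕ) * ((n : ℝ) - (1 : ℕ))) := by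
        rw [Real.one_le_sqrt]
        push_cast
        linarith
      push_cast at h3 ⊢
      linarith
  refine ⟨⟨?_, ?_⟩, ?_⟩
  · obtain ⟨a, ha, he⟩ := Finset.exists_mem_eq_sup' hne
      (fun a : ℕ => (n : ℝ) - a + √((a : ℝ) * ((n : ℝ) - a)))
    obtain ⟨G, hG, hG2⟩ := hatt a ha
    exact ⟨G, hG, he.trans hG2⟩
  · rintro x ⟨G, hG, rfl⟩
    obtain ⟨a, ha, hle⟩ := hup G hG
    exact hle.trans (Finset.le_sup' (fun a : ℕ => (n : ℝ) - a + √((a : ℝ) * ((n : ℝ) - a))) ha)
  · constructor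
    · intro h
      by_contra hn10
      push Not at hn10
      have hn11 : (11 : ℝ) ≤ n := by exact_mod_cast hn10
      obtain ⟨G, hG, hG2⟩ := hatt 2 (Finset.mem_Icc.2 ⟨by omega, by omega⟩)
      have h1 := h G hG
      rw [← hG2] at h1
      push_cast at h1
      have h4 : √((n : ℝ) - 1) * √((n : ℝ) - 1) = (n : ℝ) - 1 :=
        Real.mul_self_sqrt (by linarith)
      have h5 : 0 ≤ √((n : ℝ) - 1) := Real.sqrt_nonneg _
      have h6 : √(2 * ((n : ℝ) - 2)) ≤ 1 + √((n : ℝ) - 1) := by linarith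
      have h7 : 2 * ((n : ℝ) - 2) ≤ (1 + √((n : ℝ) - 1)) ^ 2 := by
        rwa [Real.sqrt_le_left (by positivity)] at h6
      have h8 : (n : ℝ) - 4 ≤ 2 * √((n : ℝ) - 1) := by nlinarith
      nlinarith
    · intro h10 G hG
      have hn10 : (n : ℝ) ≤ 10 := by exact_mod_cast h10
      obtain ⟨a, ha, hle⟩ := hup G hG
      refine hle.trans ?_
      rw [Finset.mem_Icc] at ha
      have h4 : √((n : ℝ) - 1) * √((n : ℝ) - 1) = (n : ℝ) - 1 :=
        Real.mul_self_sqrt (by linarith)
      have h5 : 0 ≤ √((n : ℝ) - 1) := Real.sqrt_nonneg _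
      rcases eq_or_lt_of_le ha.1 with h1 | h1
      · rw [← h1]; push_cast; rw [one_mul]
      · have ha2 : (2 : ℝ) ≤ a := by exact_mod_cast h1
        have h6 : (n : ℝ) - 4 ≤ 2 * √((n : ℝ) - 1) := by
          by_contra hcon
          push Not at hcon
          nlinarith
        have h7 : √((a : ℝ) * ((n : ℝ) - a)) ≤ ((a : ℝ) - 1) + √((n : ℝ) - 1) := by
          rw [Real.sqrt_le_left (by linarith)]
          nlinarith [mul_nonneg (show (0 : ℝ) ≤ (a : ℝ) - 1 by linarith)
            (show (0 : ℝ) ≤ 2 * √((n : ℝ) - 1) - ((n : ℝ) - 2 * a) by linarith)]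
        linarith

end Pool.Agent.Results.MP_e31007_co.ExactMaximum
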